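import Pool.Agent.W213.Ly.Assembly

/-!
# The Lyndon algebra L(6,0) is not weakly representable

The relation algebra `L(m,0)` is given as the algebra of all sets of atoms, the atoms being `1'` (here
`none`) and `a_0, …, a_m` (here `some i`, `i : Fin (m + 1)`).
-/

set_option autoImplicit false

namespace Pool.Agent.Results.MP_24331d_lc.SixNotWeaklyRep

universe u

/-- The atoms of `L(m,0)`: `none` is the identity atom `1'` and `some i` is the diversity atom `a_i`. -/
abbrev Atom (m : ℕ) : Type := Option (Fin (m + 1))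

/-- The atom table of `L(m,0)`: `AtomComp a b c` says that the atom `c` lies below `a ; b`.
It is given by `1' ; b = b`, `a ; 1' = a`, `a_i ; a_i = 1' + a_i` and, for `i ≠ j`,
`a_i ; a_j =` the sum of all diversity atoms different from `a_i` and `a_j`. -/
def AtomComp {m : ℕ} : Atom m → Atom m → Atom m → Prop
  | none, b, c => c = b
  | some i, none, c => c = some i
  | some i, some j, c =>
    if i = j then (c = none ∨ c = some i) else (c ≠ none ∧ c ≠ some i ∧ c ≠ some j)

/-- The elements of the algebra `L(m,0)` are the sets of atoms, with the Boolean operations of sets;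
the product `S ; T` is extended from the atoms by additivity. -/
def comp {m : ℕ} (S T : Set (Atom m)) : Set (Atom m) :=
  {c | ∃ a ∈ S, ∃ b ∈ T, AtomComp a b c}

/-- The converse operation of `L(m,0)`: the algebra is symmetric, so it is the identity map. -/
def conv {m : ℕ} (S : Set (Atom m)) : Set (Atom m) := S

/-- `θ` is a weak representation of `L(m,0)` over `D`: an injective map into the binary relations on `D`
which sends `0`, `1`, `·`, `1'`, converse and `;` to the empty relation, `D × D`, intersection, the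
identity relation, relational inverse and relational composition. -/
structure IsWeakRep (m : ℕ) (D : Type u) (θ : Set (Atom m) → Set (D × D)) : Prop where
  inj : Function.Injective θ
  zero : θ ∅ = ∅
  one : θ Set.univ = Set.univ
  inter : ∀ S T : Set (Atom m), θ (S ∩ T) = θ S ∩ θ T
  ident : θ {none} = {p | p.1 = p.2}
  conv : ∀ S : Set (Atom m), θ (conv S) = {p | (p.2, p.1) ∈ θ S}
  comp : ∀ S T : Set (Atom m), θ (comp S T) = {p | ∃ y : D, (p.1, y) ∈ θ S ∧ (y, p.2) ∈ θ T}

/-- `L(m,0)` has a weak representation over some nonempty set (of the universe `u`). -/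
def WeaklyRepresentable (m : ℕ) : Prop :=
  ∃ (D : Type u) (_ : Nonempty D) (θ : Set (Atom m) → Set (D × D)), IsWeakRep m D θ

/-! ### Proof -/

section Proof

open Pool.Agent.W213.Ly

/-- bit of an atom -/
def ix : Atom 6 → ℕ
  | none => 7
  | some i => i.1

/-- mask of the product of two atoms -/
def atm (a b : ℕ) : ℕ :=
  if a = 7 then 1 <<< b else if b = 7 then 1 <<< a else if a = b then 128 ||| 1 <<< a else
    127 ^^^ (1 <<< a ||| 1 <<< b)

instance (a b c : Atom 6) : Decidable (AtomComp a b c) := by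
  unfold AtomComp
  split <;> infer_instance

theorem atm_iff : ∀ a b c : Atom 6, (atm (ix a) (ix b)).testBit (ix c) = true ↔ AtomComp a b c := by
  decide +kernel

/-- the row table is correct -/
theorem row_ok : ((List.range 8).all fun a => (List.range 256).all fun T =>
    Nat.beq (row a T) ((List.range 8).foldl (fun s b => s ||| ((T >>> b) % 2) * atm a b) 0)) = true := by
  decide +kernel

theorem mul_testBit (x y c : ℕ) : ((x % 2) * y).testBit c = (x.testBit 0 && y.testBit c) := by
  rcases Nat.mod_two_eq_zero_or_one x with h | h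
  · have h1 : x.testBit 0 = false := by rw [Nat.testBit_zero]; simp [h]
    rw [h, h1]; simp
  · have h1 : x.testBit 0 = true := by rw [Nat.testBit_zero]; simp [h]
    rw [h, h1]; simp

theorem bit_shift (S a : ℕ) : (S >>> a).testBit 0 = S.testBit a := by
  rw [Nat.testBit_shiftRight]; simp

theorem foldl_testBit (T a c : ℕ) : ∀ (l : List ℕ) (s : ℕ),
    (l.foldl (fun s b => s ||| ((T >>> b) % 2) * atm a b) s).testBit c = true ↔
      s.testBit c = true ∨ ∃ b ∈ l, T.testBit b = true ∧ (atm a b).testBit c = true := by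
  intro l
  induction l with
  | nil => intro s; simp
  | cons b l ih =>
    intro s
    rw [List.foldl_cons, ih, Nat.testBit_or, mul_testBit, bit_shift]
    simp only [Bool.or_eq_true, Bool.and_eq_true, List.mem_cons, exists_eq_or_imp]
    tauto

theorem row_testBit {a : ℕ} (ha : a < 8) (T c : ℕ) :
    (row a T).testBit c = true ↔ ∃ b < 8, T.testBit b = true ∧ (atm a b).testBit c = true := by
  have h0 : row a T = row a (T % 256) := by
    have e : ∀ x : ℕ, row a x =
      Nat.mod (Nat.shiftRight tbl (Nat.mul 8 (Nat.add (Nat.mul 256 a) (x % 256)))) 256 := fun _ => rfl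
    rw [e T, e (T % 256), Nat.mod_mod]
  have h1 := row_ok
  rw [List.all_eq_true] at h1
  have h2 := h1 a (List.mem_range.2 ha)
  rw [List.all_eq_true] at h2
  have h3 := Nat.eq_of_beq_eq_true (h2 (T % 256) (List.mem_range.2 (Nat.mod_lt _ (by norm_num))))
  rw [h0, h3, foldl_testBit]
  simp only [Nat.zero_testBit, Bool.false_eq_true, false_or, List.mem_range]
  constructor
  · rintro ⟨b, hb, h4, h5⟩
    refine ⟨b, hb, ?_, h5⟩
    rw [show (256 : ℕ) = 2 ^ 8 by norm_num, Nat.testBit_mod_two_pow] at h4
    simp only [Bool.and_eq_true] at h4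
    exact h4.2
  · rintro ⟨b, hb, h4, h5⟩
    refine ⟨b, hb, ?_, h5⟩
    rw [show (256 : ℕ) = 2 ^ 8 by norm_num, Nat.testBit_mod_two_pow]
    simp [hb, h4]

theorem comp_testBit (S T c : ℕ) : (Pool.Agent.W213.Ly.comp S T).testBit c = true ↔
    ∃ a < 8, ∃ b < 8, S.testBit a = true ∧ T.testBit b = true ∧ (atm a b).testBit c = true := by
  have h0 : Pool.Agent.W213.Ly.comp S T =
      ((S % 2) * row 0 T ||| (((S >>> 1) % 2) * row 1 T ||| (((S >>> 2) % 2) * row 2 T |||
      (((S >>> 3) % 2) * row 3 T ||| (((S >>> 4) % 2) * row 4 T ||| (((S >>> 5) % 2) * row 5 T |||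
      (((S >>> 6) % 2) * row 6 T ||| ((S >>> 7) % 2) * row 7 T))))))) := rfl
  rw [h0]
  simp only [Nat.testBit_or, mul_testBit, bit_shift, Bool.or_eq_true, Bool.and_eq_true,
    row_testBit (show 0 < 8 by norm_num), row_testBit (show 1 < 8 by norm_num),
    row_testBit (show 2 < 8 by norm_num), row_testBit (show 3 < 8 by norm_num),
    row_testBit (show 4 < 8 by norm_num), row_testBit (show 5 < 8 by norm_num),
    row_testBit (show 6 < 8 by norm_num), row_testBit (show 7 < 8 by norm_num)]
  constructor
  · rintro (⟨h, b, h1, h2⟩ | ⟨h, b, h1, h2⟩ | ⟨h, b, h1, h2⟩ | ⟨h, b, h1, h2⟩ | ⟨h, b, h1, h2⟩ |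
      ⟨h, b, h1, h2⟩ | ⟨h, b, h1, h2⟩ | ⟨h, b, h1, h2⟩)
    · exact ⟨0, by norm_num, b, h1, h, h2⟩
    · exact ⟨1, by norm_num, b, h1, h, h2⟩
    · exact ⟨2, by norm_num, b, h1, h, h2⟩
    · exact ⟨3, by norm_num, b, h1, h, h2⟩
    · exact ⟨4, by norm_num, b, h1, h, h2⟩
    · exact ⟨5, by norm_num, b, h1, h, h2⟩
    · exact ⟨6, by norm_num, b, h1, h, h2⟩
    · exact ⟨7, by norm_num, b, h1, h, h2⟩
  · rintro ⟨a, ha, b, h1, h, h2⟩
    interval_cases a
    · exact Or.inl ⟨h, b, h1, h2⟩
    · exact Or.inr (Or.inl ⟨h, b, h1, h2⟩)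
    · exact Or.inr (Or.inr (Or.inl ⟨h, b, h1, h2⟩))
    · exact Or.inr (Or.inr (Or.inr (Or.inl ⟨h, b, h1, h2⟩)))
    · exact Or.inr (Or.inr (Or.inr (Or.inr (Or.inl ⟨h, b, h1, h2⟩))))
    · exact Or.inr (Or.inr (Or.inr (Or.inr (Or.inr (Or.inl ⟨h, b, h1, h2⟩)))))
    · exact Or.inr (Or.inr (Or.inr (Or.inr (Or.inr (Or.inr (Or.inl ⟨h, b, h1, h2⟩))))))
    · exact Or.inr (Or.inr (Or.inr (Or.inr (Or.inr (Or.inr (Or.inr ⟨h, b, h1, h2⟩))))))

theorem ix_lt (a : Atom 6) : ix a < 8 := by
  cases a with
  | none => simp [ix]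
  | some i => have := i.2; simp only [ix]; omega

theorem ix_surj {n : ℕ} (hn : n < 8) : ∃ a : Atom 6, ix a = n := by
  by_cases h : n = 7
  · exact ⟨none, h.symm⟩
  · exact ⟨some ⟨n, by omega⟩, rfl⟩

/-- the set of atoms of a mask, after a relabelling -/
def mk (σ : Equiv.Perm (Fin 7)) (n : ℕ) : Set (Atom 6) := {a | n.testBit (ix (a.map σ)) = true}

theorem atomComp_map (σ : Equiv.Perm (Fin 7)) (a b c : Atom 6) :
    AtomComp (m := 6) (a.map σ) (b.map σ) (c.map σ) ↔ AtomComp a b c := by
  cases a with
  | none =>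
    show c.map σ = b.map σ ↔ c = b
    exact (Option.map_injective σ.injective).eq_iff
  | some i =>
    cases b with
    | none =>
      show c.map σ = (some i : Atom 6).map σ ↔ c = some i
      exact (Option.map_injective σ.injective).eq_iff
    | some j =>
      have e1 : ∀ k : Fin 7, (c.map σ = some (σ k)) ↔ c = some k := fun k =>
        (Option.map_injective σ.injective).eq_iff (b := (some k : Atom 6))
      have e2 : c.map σ = none ↔ c = none := Option.map_eq_none_iff
      by_cases hij : i = j
      · subst hij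
        simp only [AtomComp, Option.map_some, if_true, e1, e2]
      · have hij' : σ i ≠ σ j := fun h => hij (σ.injective h)
        simp only [AtomComp, Option.map_some, if_neg hij, if_neg hij', e1, e2, ne_eq]

theorem mk_comp (σ : Equiv.Perm (Fin 7)) (S T : ℕ) :
    mk σ (Pool.Agent.W213.Ly.comp S T) = comp (mk σ S) (mk σ T) := by
  ext c
  show (Pool.Agent.W213.Ly.comp S T).testBit (ix (c.map σ)) = true ↔ _
  rw [comp_testBit]
  constructor
  · rintro ⟨a, ha, b, hb, h1, h2, h3⟩
    obtain ⟨a', rfl⟩ := ix_surj ha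
    obtain ⟨b', rfl⟩ := ix_surj hb
    have ea : (a'.map σ.symm).map σ = a' := by cases a' <;> simp
    have eb : (b'.map σ.symm).map σ = b' := by cases b' <;> simp
    refine ⟨a'.map σ.symm, ?_, b'.map σ.symm, ?_, ?_⟩
    · show S.testBit (ix ((a'.map σ.symm).map σ)) = true
      rw [ea]; exact h1
    · show T.testBit (ix ((b'.map σ.symm).map σ)) = true
      rw [eb]; exact h2
    · rw [← atomComp_map σ, ea, eb]
      exact (atm_iff _ _ _).1 h3
  · rintro ⟨a, h1, b, h2, h3⟩
    exact ⟨_, ix_lt _, _, ix_lt _, h1, h2, (atm_iff _ _ _).2 ((atomComp_map σ a b c).2 h3)⟩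

variable {D : Type u} {θ : Set (Atom 6) → Set (D × D)}

theorem mono_θ (hθ : IsWeakRep 6 D θ) {S T : Set (Atom 6)} (h : S ⊆ T) : θ S ⊆ θ T := by
  have h1 := hθ.inter S T
  rw [Set.inter_eq_left.2 h] at h1
  rw [h1]
  exact Set.inter_subset_right

/-- mask relations -/
def rel (θ : Set (Atom 6) → Set (D × D)) (σ : Equiv.Perm (Fin 7)) (n : ℕ) (x y : D) : Prop :=
  (x, y) ∈ θ (mk σ n)

theorem rel_mwr (hθ : IsWeakRep 6 D θ) (σ : Equiv.Perm (Fin 7)) : MWR (rel θ σ) where
  full x y := by
    have : mk σ 255 = Set.univ := by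
      ext a
      simp only [mk, Set.mem_ofPred_eq, Set.mem_univ, iff_true]
      have := ix_lt (a.map σ)
      interval_cases h : ix (a.map σ) <;> decide +kernel
    unfold rel
    rw [this, hθ.one]
    trivial
  zero x y := by
    have : mk σ 0 = ∅ := by
      ext a
      simp [mk]
    unfold rel
    rw [this, hθ.zero]
    exact id
  inter {S T x y} h1 h2 := by
    have : mk σ (S &&& T) = mk σ S ∩ mk σ T := by
      ext a
      simp [mk, Nat.testBit_and]
    unfold rel
    rw [this, hθ.inter]
    exact ⟨h1, h2⟩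
  mono {S T x y} h h1 := by
    have : mk σ S ⊆ mk σ T := by
      intro a ha
      simp only [mk, Set.mem_ofPred_eq] at ha ⊢
      rw [← h, Nat.testBit_and, Bool.and_eq_true] at ha
      exact ha.2
    exact mono_θ hθ this h1
  symm {S x y} h := by
    have h1 := hθ.conv (mk σ S)
    have h2 : conv (mk σ S) = mk σ S := rfl
    rw [h2] at h1
    unfold rel at h ⊢
    rw [h1]
    exact h
  idl x := by
    have : mk σ 128 = {none} := by
      ext a
      simp only [mk, Set.mem_ofPred_eq, Set.mem_singleton_iff]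
      cases a with
      | none => simp only [Option.map_none, ix, iff_true]; decide +kernel
      | some i =>
        simp only [Option.map_some, ix, reduceCtorEq, iff_false]
        have := (σ i).2
        interval_cases h : (σ i).1 <;> decide +kernel
    unfold rel
    rw [this, hθ.ident]
    rfl
  ideq {x y} h := by
    have : mk σ 128 = {none} := by
      ext a
      simp only [mk, Set.mem_ofPred_eq, Set.mem_singleton_iff]
      cases a with
      | none => simp only [Option.map_none, ix, iff_true]; decide +kernel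
      | some i =>
        simp only [Option.map_some, ix, reduceCtorEq, iff_false]
        have := (σ i).2
        interval_cases h : (σ i).1 <;> decide +kernel
    unfold rel at h
    rw [this, hθ.ident] at h
    exact h
  cmp {S T x y z} h1 h2 := by
    unfold rel at h1 h2 ⊢
    rw [mk_comp, hθ.comp]
    exact ⟨y, h1, h2⟩
  dem {S T x z} h := by
    unfold rel at h ⊢
    rw [mk_comp, hθ.comp] at h
    exact h

theorem shl_mod_testBit (x r i : ℕ) : (((x % 2)) <<< r).testBit i = (decide (i = r) && x.testBit 0) := by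
  rw [Nat.testBit_shiftLeft]
  by_cases h : i = r
  · subst h
    rcases Nat.mod_two_eq_zero_or_one x with h | h <;> simp [h, Nat.testBit_zero]
  · simp only [h, decide_false, Bool.false_and]
    by_cases h2 : i ≥ r
    · have h3 : i - r ≠ 0 := by omega
      have h4 : (x % 2).testBit (i - r) = false := by
        apply Nat.testBit_lt_two_pow
        calc x % 2 < 2 ^ 1 := Nat.mod_lt _ (by norm_num)
          _ ≤ 2 ^ (i - r) := Nat.pow_le_pow_right (by norm_num) (by omega)
      simp [h4]
    · simp [h2]

theorem rm_testBit (ρ n i : ℕ) : (rm ρ n).testBit i = true ↔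
    (n.testBit i = true ∧ i = 7) ∨ ∃ c : Fin 7, i = rc ρ c.1 ∧ n.testBit c.1 = true := by
  have h0 : rm ρ n = ((n &&& 128) ||| ((n % 2) <<< rc ρ 0 ||| (((n >>> 1) % 2) <<< rc ρ 1 |||
      (((n >>> 2) % 2) <<< rc ρ 2 ||| (((n >>> 3) % 2) <<< rc ρ 3 ||| (((n >>> 4) % 2) <<< rc ρ 4 |||
      (((n >>> 5) % 2) <<< rc ρ 5 ||| ((n >>> 6) % 2) <<< rc ρ 6))))))) := rfl
  have h1 : (128 : ℕ).testBit i = decide (i = 7) := by
    rw [show (128 : ℕ) = 2 ^ 7 by norm_num, Nat.testBit_two_pow]
    by_cases h : i = 7
    · simp [h]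
    · simp only [h, decide_false, decide_eq_false_iff_not]
      exact fun h2 => h h2.symm
  rw [h0]
  simp only [Nat.testBit_or, Nat.testBit_and, shl_mod_testBit, bit_shift, h1, Bool.or_eq_true,
    Bool.and_eq_true, decide_eq_true_eq, Fin.exists_fin_succ, Fin.exists_fin_zero]
  simp

theorem permOk_iff {ρ : ℕ} (h : permOk ρ = true) :
    (∀ c : Fin 7, rc ρ c.1 < 7) ∧ ∀ c d : Fin 7, rc ρ c.1 = rc ρ d.1 → c = d := by
  have hb : ∀ a b : ℕ, (Nat.blt a b = true) ↔ a < b := fun a b => by
    unfold Nat.blt; rw [Nat.ble_eq]; rfl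
  have hbe : ∀ a b : ℕ, (Nat.beq a b = false) ↔ a ≠ b := fun a b => by
    cases h : Nat.beq a b
    · simp only [true_iff]
      exact Nat.ne_of_beq_eq_false h
    · simp only [Bool.true_eq_false, false_iff, not_not]
      exact Nat.eq_of_beq_eq_true h
  simp only [permOk, Pool.Agent.W213.Ly.dist, List.all_cons, List.all_nil, Bool.and_true, Bool.and_eq_true,
    Bool.not_eq_true', hb, hbe] at h
  constructor
  · intro c
    fin_cases c <;> simp <;> tauto
  · intro c d hcd
    fin_cases c <;> fin_cases d <;> simp at hcd ⊢ <;> tauto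

theorem rel_good (hθ : IsWeakRep 6 D θ) : Good (rel θ 1) := by
  refine ⟨{K | ∃ σ, K = rel θ σ}, ⟨1, rfl⟩, ?_, ?_⟩
  · rintro K ⟨σ, rfl⟩
    exact rel_mwr hθ σ
  · rintro K ⟨σ, rfl⟩ ρ hρ
    obtain ⟨h1, h2⟩ := permOk_iff hρ
    have hinj : Function.Injective (fun c : Fin 7 => (⟨rc ρ c.1, h1 c⟩ : Fin 7)) := by
      intro c d hcd
      exact h2 c d (by simpa using hcd)
    let π : Equiv.Perm (Fin 7) := Equiv.ofBijective _ (Finite.injective_iff_bijective.1 hinj)
    have hπ : ∀ c, (π c).1 = rc ρ c.1 := fun c => rfl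
    refine ⟨σ.trans π.symm, ?_⟩
    funext n x y
    have : mk σ (rm ρ n) = mk (σ.trans π.symm) n := by
      ext a
      simp only [mk, Set.mem_ofPred_eq, rm_testBit]
      cases a with
      | none =>
        simp only [Option.map_none, ix]
        constructor
        · rintro (h | ⟨c, hc, -⟩)
          · exact h.1
          · have := h1 c; omega
        · intro h; exact Or.inl ⟨h, trivial⟩
      | some i =>
        simp only [Option.map_some, ix, Equiv.trans_apply]
        constructor
        · rintro (h | ⟨c, hc, h3⟩)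
          · have := (σ i).2; omega
          · have : π c = σ i := Fin.ext (by rw [hπ]; exact hc.symm)
            rw [← this, Equiv.symm_apply_apply]
            exact h3
        · intro h
          refine Or.inr ⟨π.symm (σ i), ?_, h⟩
          rw [← hπ, Equiv.apply_symm_apply]
    simp only [rel, this]

end Proof

/-- **The Lyndon algebra `L(6,0)` has no weak representation over any set.** -/
theorem result : ¬ WeaklyRepresentable.{u} 6 := by
  rintro ⟨D, -, θ, hθ⟩
  have hG := rel_good hθ
  have hne : (θ {some 1}).Nonempty := by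
    rw [Set.nonempty_iff_ne_empty]
    intro h
    rw [← hθ.zero] at h
    exact Set.singleton_ne_empty _ (hθ.inj h)
  obtain ⟨⟨x, y⟩, hxy⟩ := hne
  have h1 : mk 1 (Pool.Agent.W213.Ly.s1 1) = ({some 1} : Set (Atom 6)) := by
    ext a
    revert a
    simp only [mk, Set.mem_ofPred_eq, Set.mem_singleton_iff]
    decide +kernel
  refine Pool.Agent.W213.Ly.no_mask_rep hG (z0 := y) (q := x) ?_
  unfold rel
  rw [h1]
  exact hxy

end Pool.Agent.Results.MP_24331d_lc.SixNotWeaklyRep
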